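import Pool.Agent.K1H53.BI.Plan4

/-!
# The process at all times exists

The aggregates are driven by independent variables `ω (t, B)` with law `K B` (`t ≥ 1`, `B` a finite
set): `X (t + 1) = ω (t, X t)`.
-/

set_option autoImplicit false

open scoped ENNReal
open Finset MeasureTheory Filter

namespace Pool.Agent.K1H1.BI

open Pool.Agent.K1H53.BI

theorem Phi_le (ν : PMF ℕ) (G : Finset V → Prop) (s : St) : Phi ν G s ≤ 1 := by
  refine iSup_le fun n => ?_
  refine le_trans (Ex_mono (h := fun _ => 1) _ fun a _ => ?_) (Ex_const _ 1).le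
  unfold ind
  split_ifs <;> simp

theorem Phi_zero (ν : PMF ℕ) (G : Finset V → Prop) (B : Finset V) (hG : G B) :
    Phi ν G ⟨B, [], 0⟩ = 1 := by
  refine le_antisymm (Phi_le _ _ _) ?_
  refine le_trans ?_ (le_iSup _ 0)
  show 1 ≤ Ex (PMF.pure _) _
  rw [Ex_pure]
  simp [ind, Fin', hG]

/-- The sum of the transition function. -/
theorem tr_sum (hM : S_MKV) (ν : PMF ℕ) (B : Finset V) :
    ∑' C, tr ν B C = Phi ν (fun _ => True) ⟨B, [], 1⟩ := by
  have h := hM ν (fun _ => True) B 1 0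
  rw [Nat.add_zero] at h
  rw [h]
  refine tsum_congr fun C => ?_
  rw [Phi_zero ν _ C trivial, mul_one]
  rfl

theorem reach_one (hM : S_MKV) (ν : PMF ℕ)
    (h1 : ∀ n : ℕ, Phi ν (fun _ => True) ⟨{0}, [], n⟩ = 1) (n : ℕ) (B : Finset V)
    (hB : Phi ν (fun C => C = B) ⟨{0}, [], n⟩ ≠ 0) :
    Phi ν (fun _ => True) ⟨B, [], 1⟩ = 1 := by
  by_contra hne
  have hlt : Phi ν (fun _ => True) ⟨B, [], 1⟩ < 1 := lt_of_le_of_ne (Phi_le _ _ _) hne
  have e1 := hM ν (fun _ => True) {0} n 1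
  rw [h1] at e1
  have e0 := hM ν (fun _ => True) {0} n 0
  rw [h1] at e0
  have hs : ∑' C, Phi ν (fun D => D = C) ⟨{0}, [], n⟩ = 1 := by
    rw [e0]
    refine tsum_congr fun C => ?_
    rw [Phi_zero ν _ C trivial, mul_one]
  have hlt2 : ∑' C, Phi ν (fun D => D = C) ⟨{0}, [], n⟩ * Phi ν (fun _ => True) ⟨C, [], 1⟩ <
      ∑' C, Phi ν (fun D => D = C) ⟨{0}, [], n⟩ := by
    refine ENNReal.tsum_lt_tsum (i := B) ?_ (fun C => ?_) ?_
    · rw [← e1]
      exact ENNReal.one_ne_top
    · exact mul_le_of_le_one_right zero_le (Phi_le _ _ _)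
    · calc Phi ν (fun D => D = B) ⟨{0}, [], n⟩ * Phi ν (fun _ => True) ⟨B, [], 1⟩ <
          Phi ν (fun D => D = B) ⟨{0}, [], n⟩ * 1 :=
            ENNReal.mul_lt_mul_right hB
              (ne_top_of_le_ne_top ENNReal.one_ne_top (Phi_le _ _ _)) hlt
        _ = _ := mul_one _
  rw [← e1, hs] at hlt2
  exact lt_irrefl _ hlt2

/-- A function with sum one as a probability mass function. -/
noncomputable def mk (f : Finset V → ℝ≥0∞) (h : ∑' C, f C = 1) : PMF (Finset V) :=
  ⟨f, h ▸ ENNReal.summable.hasSum⟩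

open Classical in
/-- The kernel. -/
noncomputable def K (ν : PMF ℕ) (B : Finset V) : PMF (Finset V) :=
  if h : ∑' C, tr ν B C = 1 then mk (tr ν B) h else PMF.pure B

theorem K_eq (ν : PMF ℕ) (B : Finset V) (h : ∑' C, tr ν B C = 1) (C : Finset V) :
    K ν B C = tr ν B C := by
  unfold K
  rw [dif_pos h]
  rfl

/-- The process. -/
def XX : ℕ → (ℕ × Finset V → Finset V) → Finset V
  | 0, _ => {0}
  | t + 1, ω => if t = 0 then {0} else ω (t, XX t ω)

theorem XX_one (ω : ℕ × Finset V → Finset V) : XX 1 ω = {0} := rfl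

theorem XX_succ (t : ℕ) (ht : 1 ≤ t) (ω : ℕ × Finset V → Finset V) :
    XX (t + 1) ω = ω (t, XX t ω) := by
  show (if t = 0 then {0} else ω (t, XX t ω)) = _
  rw [if_neg (by omega)]

theorem cyl_iff (ω : ℕ × Finset V → Finset V) (a : ℕ → Finset V) (ha : a 1 = {0}) (t : ℕ) :
    (∀ i, 1 ≤ i → i ≤ t + 1 → XX i ω = a i) ↔ ∀ i, 1 ≤ i → i ≤ t → ω (i, a i) = a (i + 1) := by
  constructor
  · intro h i h1 h2
    rw [← h (i + 1) (by omega) (by omega), XX_succ i h1, h i h1 (by omega)]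
  · intro h i h1 h2
    induction i, h1 using Nat.le_induction with
    | base => rw [XX_one, ha]
    | succ i hi ih =>
      rw [XX_succ i hi, ih (by omega), h i hi (by omega)]

instance : MeasurableSpace (Finset V) := ⊤

/-- The product measure. -/
noncomputable def PP (ν : PMF ℕ) : Measure (ℕ × Finset V → Finset V) :=
  Measure.infinitePi fun p => (K ν p.2).toMeasure

instance (ν : PMF ℕ) : IsProbabilityMeasure (PP ν) := by
  unfold PP
  infer_instance

theorem PP_cyl (ν : PMF ℕ) (a : ℕ → Finset V) (t : ℕ) :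
    PP ν {ω | ∀ i, 1 ≤ i → i ≤ t → ω (i, a i) = a (i + 1)} =
      ∏ i ∈ Icc 1 t, K ν (a i) (a (i + 1)) := by
  classical
  have hset : {ω : ℕ × Finset V → Finset V | ∀ i, 1 ≤ i → i ≤ t → ω (i, a i) = a (i + 1)} =
      Set.pi (((Icc 1 t).image fun i => (i, a i) : Finset (ℕ × Finset V)) :
        Set (ℕ × Finset V)) (fun p => {a (p.1 + 1)}) := by
    ext ω
    simp only [Set.mem_ofPred_eq, Set.mem_pi, Finset.mem_coe, Finset.mem_image, Finset.mem_Icc,
      Set.mem_singleton_iff]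
    constructor
    · rintro h p ⟨i, ⟨h1, h2⟩, rfl⟩
      exact h i h1 h2
    · intro h i h1 h2
      exact h (i, a i) ⟨i, ⟨h1, h2⟩, rfl⟩
  rw [hset, PP, Measure.infinitePi_pi _ (fun _ _ => MeasurableSpace.measurableSet_top)]
  rw [Finset.prod_image (fun i _ j _ h => (Prod.mk.inj h).1)]
  refine Finset.prod_congr rfl fun i _ => ?_
  exact PMF.toMeasure_apply_singleton _ _ trivial

theorem meas_XX (t : ℕ) (B : Finset V) : MeasurableSet {ω | XX t ω = B} := by
  induction t generalizing B with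
  | zero =>
    have : {ω | XX 0 ω = B} = {_ω : ℕ × Finset V → Finset V | ({0} : Finset V) = B} := rfl
    rw [this]
    exact MeasurableSet.const _
  | succ t ih =>
    by_cases ht : t = 0
    · subst ht
      have : {ω | XX 1 ω = B} = {_ω : ℕ × Finset V → Finset V | ({0} : Finset V) = B} := rfl
      rw [this]
      exact MeasurableSet.const _
    · have : {ω | XX (t + 1) ω = B} =
          ⋃ C : Finset V, {ω | XX t ω = C} ∩ {ω | ω (t, C) = B} := by
        ext ω
        simp only [Set.mem_ofPred_eq, Set.mem_iUnion, Set.mem_inter_iff]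
        rw [XX_succ t (by omega)]
        constructor
        · intro h
          exact ⟨_, rfl, h⟩
        · rintro ⟨C, h1, h2⟩
          rw [h1]
          exact h2
      rw [this]
      refine MeasurableSet.iUnion fun C => (ih C).inter ?_
      have h3 : {ω : ℕ × Finset V → Finset V | ω (t, C) = B} = (fun ω => ω (t, C)) ⁻¹' {B} := rfl
      rw [h3]
      exact (measurable_pi_apply _) trivial

theorem tr_reach (hM : S_MKV) (ν : PMF ℕ) (n : ℕ) (A B : Finset V)
    (hA : Phi ν (fun C => C = A) ⟨{0}, [], n⟩ ≠ 0) (hB : tr ν A B ≠ 0) :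
    Phi ν (fun C => C = B) ⟨{0}, [], n + 1⟩ ≠ 0 := by
  rw [hM ν (fun C => C = B) {0} n 1]
  intro h
  rw [ENNReal.tsum_eq_zero] at h
  have := h A
  rw [mul_eq_zero] at this
  rcases this with h | h
  · exact hA h
  · exact hB h

/-- The cylinders of positive probability are reachable. -/
theorem cyl_reach (hM : S_MKV) (ν : PMF ℕ)
    (h1 : ∀ n : ℕ, Phi ν (fun _ => True) ⟨{0}, [], n⟩ = 1) (a : ℕ → Finset V) (ha : a 1 = {0})
    (t : ℕ) (hp : ∏ i ∈ Icc 1 t, K ν (a i) (a (i + 1)) ≠ 0) :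
    Phi ν (fun C => C = a (t + 1)) ⟨{0}, [], t⟩ ≠ 0 := by
  induction t with
  | zero =>
    rw [ha, Phi_zero ν (fun C => C = {0}) {0} rfl]
    exact one_ne_zero
  | succ t ih =>
    rw [Finset.prod_Icc_succ_top (by omega)] at hp
    have hl := left_ne_zero_of_mul hp
    have hr := right_ne_zero_of_mul hp
    have hre := ih hl
    rw [K_eq ν _ ((tr_sum hM ν _).trans (reach_one hM ν h1 t _ hre))] at hr
    exact tr_reach hM ν t _ _ hre hr

theorem markov_XX (hM : S_MKV) (ν : PMF ℕ)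
    (h1 : ∀ n : ℕ, Phi ν (fun _ => True) ⟨{0}, [], n⟩ = 1) (t : ℕ) (a : ℕ → Finset V)
    (ht : 1 ≤ t) :
    PP ν {ω | ∀ i, 1 ≤ i → i ≤ t + 1 → XX i ω = a i} =
      PP ν {ω | ∀ i, 1 ≤ i → i ≤ t → XX i ω = a i} * tr ν (a t) (a (t + 1)) := by
  by_cases ha : a 1 = {0}
  · obtain ⟨s, rfl⟩ : ∃ s, t = s + 1 := ⟨t - 1, by omega⟩
    simp only [cyl_iff _ a ha]
    rw [PP_cyl, PP_cyl, Finset.prod_Icc_succ_top (by omega)]
    by_cases hz : ∏ i ∈ Icc 1 s, K ν (a i) (a (i + 1)) = 0
    · rw [hz, zero_mul, zero_mul]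
    · have hre := cyl_reach hM ν h1 a ha s hz
      rw [K_eq ν _ ((tr_sum hM ν _).trans (reach_one hM ν h1 s _ hre))]
  · have e : ∀ t, 1 ≤ t → {ω | ∀ i, 1 ≤ i → i ≤ t → XX i ω = a i} = ∅ := by
      intro t ht
      ext ω
      simp only [Set.mem_ofPred_eq, Set.mem_empty_iff_false, iff_false]
      intro h
      exact ha (h 1 le_rfl ht).symm
    rw [e t ht, e (t + 1) (by omega)]
    simp

/-- **Piece EX.** -/
theorem t_EX : S_EX := by
  intro hM ν h1
  refine ⟨ℕ × Finset V → Finset V, inferInstance, PP ν, XX, ?_⟩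
  exact
    { prob := inferInstance
      meas := fun t B => meas_XX t B
      start := by
        have : {ω | XX 1 ω = {0}} = Set.univ := by
          ext ω
          simp [XX_one]
        rw [this, measure_univ]
      markov := fun t a ht => markov_XX hM ν h1 t a ht }

end Pool.Agent.K1H1.BI
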