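import Pool.Agent.K1H53.BI.Plan3
import Pool.Agent.K1H53.BI.Fin0

/-! # Project BI (MP_1354f0_pr), piece HZ: geometry of an aggregate with small deviations -/

set_option autoImplicit false

open scoped ENNReal
open Finset
open Pool.Agent.K1H53.BI

namespace Pool.Agent.K1H1.BI

theorem nrm_sq (z : V) : nrm z ^ 2 = nsq z := Real.sq_sqrt (Nat.cast_nonneg _)

theorem nrm_nonneg (z : V) : 0 ≤ nrm z := Real.sqrt_nonneg _

theorem coord_le (z : V) (i : Fin 3) : ((z i).natAbs : ℝ) ≤ nrm z := by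
  apply Real.le_sqrt_of_sq_le
  have h : (z i).natAbs ^ 2 ≤ nsq z := by
    unfold nsq
    exact Finset.single_le_sum (f := fun j => (z j).natAbs ^ 2) (fun _ _ => Nat.zero_le _)
      (Finset.mem_univ i)
  exact_mod_cast h

theorem ball_finite (ρ : ℝ) : {z : V | nrm z < ρ}.Finite := by
  refine (Set.finite_Icc (fun _ : Fin 3 => -(⌈|ρ|⌉₊ : ℤ)) (fun _ => (⌈|ρ|⌉₊ : ℤ))).subset ?_
  intro z hz
  have hz' : nrm z < ρ := hz
  have key : ∀ i, |z i| ≤ (⌈|ρ|⌉₊ : ℤ) := by
    intro i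
    have h1 : ((z i).natAbs : ℝ) ≤ (⌈|ρ|⌉₊ : ℝ) :=
      (coord_le z i).trans (hz'.le.trans ((le_abs_self ρ).trans (Nat.le_ceil _)))
    have h2 : (z i).natAbs ≤ ⌈|ρ|⌉₊ := by exact_mod_cast h1
    rw [Int.abs_eq_natAbs]
    exact_mod_cast h2
  exact ⟨fun i => (abs_le.mp (key i)).1, fun i => (abs_le.mp (key i)).2⟩

theorem t_HZ : S_HZ := by
  classical
  intro hB hMOM η hη hη2
  obtain ⟨T₀, hT₀⟩ := rad_large (max 100 (1 / η ^ 2))
  refine ⟨T₀, fun T hT => ?_⟩
  have hr := hT₀ T hT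
  set r := rad T with hrdef
  set q := Real.sqrt r with hq
  have hr100 : 100 ≤ r := (le_max_left _ _).trans hr
  have hrη : 1 / η ^ 2 ≤ r := (le_max_right _ _).trans hr
  have hr0 : 0 < r := by linarith
  have hqq : q * q = r := Real.mul_self_sqrt hr0.le
  have hq0 : 0 < q := Real.sqrt_pos.mpr hr0
  have hq10 : 10 ≤ q := by
    rw [hq]
    apply Real.le_sqrt_of_sq_le
    linarith
  have hqr : q ≤ r / 10 := by nlinarith
  have h1 : 1 ≤ η * q := by
    have h2 : 1 / η ≤ q := by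
      rw [hq]
      apply Real.le_sqrt_of_sq_le
      rw [div_pow, one_pow]
      exact hrη
    rw [div_le_iff₀ hη] at h2
    linarith
  set d := η * q with hd
  have hd0 : 0 < d := by positivity
  have hdq : d ≤ q / 2 := by
    rw [hd]
    nlinarith
  have hπ := Real.pi_gt_three
  obtain ⟨hdn, hdn1⟩ := num_down (r := r) (c := η) (κ := 120 * η) (by linarith) hη
    (by linarith) hη2 h1
  have hup := num_up (r := r) (c := η) (κ := 120 * η) (by linarith) hη (by linarith) hη2 h1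
  have hcube := rad_cube T
  rw [← hrdef] at hcube
  rw [hcube] at hdn hup
  -- the two balls
  let D1 : Finset V := (ball_finite (r - d)).toFinset
  let D2 : Finset V := (ball_finite (r + d)).toFinset
  have hD1 : ∀ z, z ∈ D1 ↔ nrm z < r - d := fun z => by
    simp only [D1, Set.Finite.mem_toFinset]
    rfl
  have hD2 : ∀ z, z ∈ D2 ↔ nrm z < r + d := fun z => by
    simp only [D2, Set.Finite.mem_toFinset]
    rfl
  have hsub : D1 ⊆ D2 := fun z hz => (hD2 z).mpr (by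
    have := (hD1 z).mp hz
    linarith)
  have c1 : (T : ℝ) - 120 * η * (r ^ 2 * q) < D1.card :=
    hdn.trans_le (hB.2 (r - d) D1 hdn1 (fun z hz => (hD1 z).mpr hz))
  have c1' : 4 * Real.pi / 3 * (r - d - 1) ^ 3 ≤ D1.card :=
    hB.2 (r - d) D1 hdn1 (fun z hz => (hD1 z).mpr hz)
  have c2 : (D2.card : ℝ) < T + 120 * η * (r ^ 2 * q) :=
    (hB.1 (r + d) D2 (by linarith) (fun z hz => (hD2 z).mp hz)).trans_lt hup
  refine ⟨∑ z ∈ D1, nsq z, ∑ z ∈ D2, nsq z, ?_, ?_, ?_⟩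
  · -- lower bound
    have h3 : r ^ 3 ≤ D1.card := by
      refine le_trans ?_ c1'
      have e1 : 94 / 100 * r ≤ r - d - 1 := by linarith
      have e2 : (94 / 100 * r) ^ 3 ≤ (r - d - 1) ^ 3 := pow_le_pow_left₀ (by positivity) e1 3
      have e3 : 4 * (94 / 100 * r) ^ 3 ≤ 4 * Real.pi / 3 * (r - d - 1) ^ 3 := by
        apply mul_le_mul _ e2 (by positivity) (by positivity)
        linarith
      have e4 : r ^ 3 ≤ 4 * (94 / 100 * r) ^ 3 := by
        have : 0 ≤ r ^ 3 := by positivity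
        have e5 : 4 * (94 / 100 * r) ^ 3 = 4 * (94 / 100) ^ 3 * r ^ 3 := by ring
        rw [e5]
        norm_num
        linarith
      linarith
    have h27 : (27 : ℝ) ≤ r ^ 3 := by
      calc (27 : ℝ) = 3 ^ 3 := by norm_num
        _ ≤ r ^ 3 := pow_le_pow_left₀ (by norm_num) (by linarith) 3
    have h16 : 16 ≤ D1.card := by
      have : (16 : ℝ) ≤ D1.card := by linarith
      exact_mod_cast this
    have h4 := hMOM D1 h16
    have h5 : r ^ 5 ≤ (D1.card : ℝ) ^ ((5 : ℝ) / 3) := by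
      have e : r ^ 5 = (r ^ 3) ^ ((5 : ℝ) / 3) := by
        rw [← Real.rpow_natCast r 3, ← Real.rpow_mul hr0.le, ← Real.rpow_natCast]
        norm_num
      rw [e]
      exact Real.rpow_le_rpow (by positivity) h3 (by norm_num)
    push_cast
    have h7 : r ^ 5 / 64 ≤ (D1.card : ℝ) ^ ((5 : ℝ) / 3) / 64 :=
      div_le_div_of_nonneg_right h5 (by norm_num)
    exact h7.trans h4
  · -- difference
    have e1 : ∑ z ∈ D2, nsq z = ∑ z ∈ D2 \ D1, nsq z + ∑ z ∈ D1, nsq z :=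
      (Finset.sum_sdiff hsub).symm
    have e2 : ((∑ z ∈ D2 \ D1, nsq z : ℕ) : ℝ) ≤ ((D2 \ D1).card : ℝ) * (9 / 4 * r ^ 2) := by
      push_cast
      rw [← nsmul_eq_mul]
      apply Finset.sum_le_card_nsmul
      intro z hz
      have hz2 := (hD2 z).mp (Finset.mem_sdiff.mp hz).1
      rw [← nrm_sq]
      have : nrm z ^ 2 ≤ (3 / 2 * r) ^ 2 :=
        pow_le_pow_left₀ (nrm_nonneg z) (by linarith) 2
      calc nrm z ^ 2 ≤ (3 / 2 * r) ^ 2 := this
        _ = 9 / 4 * r ^ 2 := by ring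
    have e3 : ((D2 \ D1).card : ℝ) = (D2.card : ℝ) - D1.card := by
      rw [Finset.card_sdiff_of_subset hsub, Nat.cast_sub (Finset.card_le_card hsub)]
    have e4 : ((D2 \ D1).card : ℝ) ≤ 120 * (r ^ 2 * q) := by
      rw [e3]
      have : 240 * η * (r ^ 2 * q) ≤ 120 * (r ^ 2 * q) := by
        apply mul_le_mul_of_nonneg_right _ (by positivity)
        linarith
      linarith
    rw [e1]
    push_cast at e2 ⊢
    have e5 : ((D2 \ D1).card : ℝ) * (9 / 4 * r ^ 2) ≤ 120 * (r ^ 2 * q) * (9 / 4 * r ^ 2) :=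
      mul_le_mul_of_nonneg_right e4 (by positivity)
    have e6 : 120 * (r ^ 2 * q) * (9 / 4 * r ^ 2) = 270 * (r ^ 4 * q) := by ring
    have e7 : 0 ≤ r ^ 4 * q := by positivity
    linarith
  · intro A hI hO
    obtain ⟨δ1, ⟨hδ1, hδ1'⟩, hlt1⟩ := exists_lt_of_csInf_lt (devI_nonempty T A) hI
    obtain ⟨δ2, ⟨hδ2, hδ2'⟩, hlt2⟩ := exists_lt_of_csInf_lt (devO_nonempty T A) hO
    rw [← hrdef] at hδ1' hδ2'
    have hA1 : D1 ⊆ A := fun z hz => hδ1' z (by
      have := (hD1 z).mp hz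
      linarith)
    have hA2 : A ⊆ D2 := fun z hz => (hD2 z).mpr (by
      have := hδ2' z hz
      linarith)
    refine ⟨Finset.sum_le_sum_of_subset hA1, Finset.sum_le_sum_of_subset hA2, ?_, ?_⟩
    · have k1 : (D1.card : ℝ) ≤ A.card := by exact_mod_cast Finset.card_le_card hA1
      have k2 : (A.card : ℝ) ≤ D2.card := by exact_mod_cast Finset.card_le_card hA2
      rw [abs_le]
      constructor <;> linarith
    · intro z hz
      have hz2 := (hD2 z).mp (hA2 hz)
      have k1 : nrm z ≤ (⌈2 * r⌉₊ : ℝ) := by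
        have : 2 * r ≤ (⌈2 * r⌉₊ : ℝ) := Nat.le_ceil _
        linarith
      have k2 : (nsq z : ℝ) ≤ (⌈2 * r⌉₊ : ℝ) ^ 2 := by
        rw [← nrm_sq]
        exact pow_le_pow_left₀ (nrm_nonneg z) k1 2
      exact_mod_cast k2

end Pool.Agent.K1H1.BI
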