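import Pool.Agent.K1H38.BI.Two

/-! # Project BI (MP_1354f0_pr), piece ONE: moments of `yy` after one event -/

set_option autoImplicit false

open scoped ENNReal
open Finset
open Pool.Agent.K1H53.BI

namespace Pool.Agent.K1H1.BI

open Pool.Agent.K1H38.BI in
/-- **Piece ONE.** -/
theorem t_ONE (hGen : S_GEN) : S_ONE := by
  intro ν σ2 M R s t hO hg
  by_cases hp : Proc R s
  · have hind : ind (Proc R) s = 1 := by simp [ind, hp]
    rw [hind]
    obtain ⟨h1, -, -⟩ := (hGen ν R s hg).2 hp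
    obtain ⟨μ3, hμ3, hpoly⟩ := poly hO
    set w : ℝ := (yy s : ℝ) - t with hw
    have hcast := yy_cast hp
    have hM : 0 ≤ M := zero_le_one.trans hO.one
    refine ⟨?_, ?_, ?_⟩
    · rw [h1 (fun n => (n : ℝ≥0∞))]
      have e : ∀ k : ℕ, ((yy s - 1 + k : ℕ) : ℝ≥0∞) = ENNReal.ofReal ((yy s - 1 + k : ℕ) : ℝ) :=
        fun k => (ENNReal.ofReal_natCast _).symm
      rw [Ex_congr ν (fun k _ => e k), Ex_ofReal ν _ (fun k => Nat.cast_nonneg _) (yy s : ℝ)]
      · exact ENNReal.ofReal_natCast _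
      · have := hpoly (yy s) 1 0 0
        simp only [zero_mul, add_zero, one_mul] at this
        simpa only [hcast] using this
    · rw [h1 (fun n => ENNReal.ofReal (((n : ℝ) - t) ^ 2)),
        Ex_ofReal ν _ (fun k => sq_nonneg _) (w ^ 2 + σ2), ENNReal.ofReal_add (sq_nonneg _) hO.pos.le,
        mul_one]
      have := hpoly (w ^ 2) (2 * w) 1 0
      simp only [zero_mul, add_zero, one_mul] at this
      convert this using 2 with k
      rw [hcast, hw]
      ring
    · have h4 : HasSum (fun k : ℕ => (ν k).toReal * ((k : ℝ) - 1) ^ 4)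
          (∑' k : ℕ, (ν k).toReal * ((k : ℝ) - 1) ^ 4) := hO.sum4.hasSum
      set μ4 : ℝ := ∑' k : ℕ, (ν k).toReal * ((k : ℝ) - 1) ^ 4 with hμ4
      have hs := (hpoly (w ^ 4) (4 * w ^ 3) (6 * w ^ 2) (4 * w)).add h4
      rw [h1 (fun n => ENNReal.ofReal (((n : ℝ) - t) ^ 4)),
        Ex_ofReal ν _ (fun k => by positivity) (w ^ 4 + 6 * w ^ 2 * σ2 + 4 * w * μ3 + μ4)]
      · have hle : w ^ 4 + 6 * w ^ 2 * σ2 + 4 * w * μ3 + μ4 ≤ w ^ 4 + 10 * M * (w ^ 2 + 1) := by
          have a1 : 6 * w ^ 2 * σ2 ≤ 6 * w ^ 2 * M :=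
            mul_le_mul_of_nonneg_left hO.le (by positivity)
          have a2 : 4 * w * μ3 ≤ 2 * M * (w ^ 2 + 1) := by
            calc 4 * w * μ3 ≤ |4 * w * μ3| := le_abs_self _
              _ = 4 * |w| * |μ3| := by rw [abs_mul, abs_mul]; norm_num
              _ ≤ 4 * |w| * M := mul_le_mul_of_nonneg_left hμ3 (by positivity)
              _ ≤ 2 * M * (w ^ 2 + 1) := by
                  have : 2 * |w| ≤ w ^ 2 + 1 := by
                    nlinarith [sq_nonneg (|w| - 1), sq_abs w]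
                  nlinarith
          have a3 : μ4 ≤ M := hO.m4
          nlinarith [mul_nonneg hM (sq_nonneg w)]
        refine (ENNReal.ofReal_le_ofReal hle).trans (le_of_eq ?_)
        rw [ENNReal.ofReal_add (by positivity) (by positivity),
          ENNReal.ofReal_mul (by positivity : (0 : ℝ) ≤ 10 * M),
          ENNReal.ofReal_add (sq_nonneg _) zero_le_one, ENNReal.ofReal_one, mul_one]
      · convert hs using 2 with k
        rw [hcast, hw]
        ring
  · have hind : ind (Proc R) s = 0 := by simp [ind, hp]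
    obtain ⟨s', e1, e2, -, -⟩ := (hGen ν R s hg).1 hp
    rw [hind, e1]
    refine ⟨?_, ?_, ?_⟩
    · rw [Ex_pure, e2]
    · rw [Ex_pure, e2]
      simp
    · rw [Ex_pure, e2]
      simp

end Pool.Agent.K1H1.BI
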