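import Pool.Agent.K1H53.BI.Plan

/-! # Project BI (MP_1354f0_pr), piece REL: the stopped and the unstopped process -/

set_option autoImplicit false

open scoped ENNReal
open Finset
open Pool.Agent.K1H53.BI

namespace Pool.Agent.K1H1.BI

theorem put_sub (s : St) (y : V) : s.A ⊆ (put s y).A := by
  unfold put
  split_ifs
  · exact Finset.Subset.refl _
  · exact Finset.subset_insert _ _

theorem children_sub (x : V) (k : ℕ) : ∀ (s s' : St), s' ∈ (children x k s).support → s.A ⊆ s'.A := by
  induction k with
  | zero =>
    intro s s' h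
    simp only [children, PMF.mem_support_pure_iff] at h
    rw [h]
  | succ k ih =>
    intro s s' h
    simp only [children, PMF.mem_support_bind_iff] at h
    obtain ⟨e, -, h2⟩ := h
    exact (put_sub s _).trans (ih _ _ h2)

theorem step_sub (ν : PMF ℕ) (s s' : St) (h : (step ν s) s' ≠ 0) : s.A ⊆ s'.A := by
  rw [← PMF.mem_support_iff] at h
  unfold step at h
  split_ifs at h with h1 h2
  · rw [PMF.mem_support_pure_iff] at h
    rw [h]
  · rw [PMF.mem_support_pure_iff] at h
    rw [h]
  · simp only [PMF.mem_support_bind_iff] at h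
    obtain ⟨i, -, k, -, h3⟩ := h
    exact children_sub _ _ ⟨s.A, s.L.eraseIdx i, s.m⟩ _ h3

theorem not_In (ν : PMF ℕ) (R : ℕ) (s s' : St) (h : (step ν s) s' ≠ 0) (hs : ¬ In R s) :
    ¬ In R s' := fun h' => hs fun z hz => h' z (step_sub ν s s' h hz)

theorem step_fin (ν : PMF ℕ) (s : St) (h : Fin' s) : step ν s = PMF.pure s := by
  unfold step
  rw [dif_pos h.1, if_pos h.2]

theorem Ex_law_succ (κ : St → PMF St) (T n : ℕ) (g : St → ℝ≥0∞) :
    Ex (law κ T (n + 1)) g = Ex (law κ T n) (fun s => Ex (κ s) g) := by
  rw [law, Ex_bind]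

/-- **Piece REL.** -/
theorem t_REL : S_REL := by
  intro ν R T
  refine ⟨?_, ?_, ?_⟩
  · intro n
    induction n with
    | zero => intro g; rfl
    | succ n ih =>
      intro g
      rw [Ex_law_succ, Ex_law_succ]
      have e1 : ∀ s, Ex (step ν s) (fun s => ind (In R) s * g s) =
          ind (In R) s * Ex (step ν s) (fun s => ind (In R) s * g s) := by
        intro s
        by_cases hs : In R s
        · simp [ind, hs]
        · have h0 : Ex (step ν s) (fun s => ind (In R) s * g s) = Ex (step ν s) (fun _ => 0) := by
            apply Ex_congr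
            intro s' hs'
            simp [ind, not_In ν R s s' hs' hs]
          rw [h0, Ex_const, mul_zero]
      have e2 : ∀ s, Ex (stepD ν R s) (fun s => ind (In R) s * g s) =
          ind (In R) s * Ex (step ν s) (fun s => ind (In R) s * g s) := by
        intro s
        by_cases hs : In R s
        · simp [ind, hs, stepD]
        · simp [ind, hs, stepD, Ex_pure]
      rw [Ex_congr _ (fun s _ => e1 s), Ex_congr (law (stepD ν R) T n) (fun s _ => e2 s)]
      exact ih _
  · refine monotone_nat_of_le_succ fun n => ?_
    rw [Ex_law_succ]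
    refine Ex_mono _ fun s _ => ?_
    by_cases hs : In R s
    · simp [ind, hs]
    · have h1 : Ex (step ν s) (ind fun s => ¬ In R s) = Ex (step ν s) (fun _ => 1) := by
        apply Ex_congr
        intro s' hs'
        simp [ind, not_In ν R s s' hs' hs]
      rw [h1, Ex_const]
      simp [ind, hs]
  · intro G
    refine monotone_nat_of_le_succ fun n => ?_
    rw [Ex_law_succ]
    refine Ex_mono _ fun s _ => ?_
    by_cases hs : Fin' s
    · rw [step_fin ν s hs, Ex_pure]
    · simp [ind, hs]

end Pool.Agent.K1H1.BI
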